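import Pool.Agent.W645.WV.Stm

set_option autoImplicit false

/-! Project WV (helper645): the frequency localised estimate. -/

open MeasureTheory Set Complex
open scoped ENNReal

namespace Pool.Agent.W347.WV

open Pool.Agent.W203.BE (T gn ga al)
open Pool.Agent.W645.WV

theorem OS_cont {χ : ℝ → ℂ} (hχ : Continuous χ) (r : ℝ) : Continuous (OS χ r) := by
  unfold OS
  have h1 : Continuous (fun y : ℝ => ((r * Real.sqrt y : ℝ) : ℂ)) :=
    Complex.continuous_ofReal.comp (continuous_const.mul Real.continuous_sqrt)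
  exact hχ.mul ((continuous_const.mul h1).cexp)

theorem OS_supp {χ : ℝ → ℂ} {N : ℝ} {K : ℕ} (hχ : Cls (1 / 8) 8 N K χ) (r : ℝ) (y : ℝ)
    (h : OS χ r y ≠ 0) : |y| ≤ 8 := by
  have h1 : χ y ≠ 0 := by
    intro h0
    apply h
    unfold OS
    rw [h0, zero_mul]
  obtain ⟨h2, h3⟩ := hχ.2.1 y h1
  rw [abs_le]
  constructor <;> linarith

theorem MK_int {Θ : ℝ → ℂ} {L : ℝ} {c : ℝ} (hc : Continuous (MK Θ))
    (h : ∫⁻ s : ℝ, ENNReal.ofReal (Real.sqrt (1 + (s / L) ^ 2)) * ‖MK Θ s‖ₑ ≤ ENNReal.ofReal c) :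
    Integrable (MK Θ) := by
  refine ⟨hc.aestronglyMeasurable, ?_⟩
  refine lt_of_le_of_lt (lintegral_mono fun s => ?_) (h.trans_lt ENNReal.ofReal_lt_top)
  have h1 : (1 : ℝ≥0∞) ≤ ENNReal.ofReal (Real.sqrt (1 + (s / L) ^ 2)) := by
    rw [ENNReal.one_le_ofReal]
    refine Real.one_le_sqrt.2 ?_
    nlinarith [sq_nonneg (s / L)]
  calc ‖MK Θ s‖ₑ = 1 * ‖MK Θ s‖ₑ := (one_mul _).symm
    _ ≤ _ := by gcongr

theorem loc (hKA : S_KA) (hKM : S_KM) (hKER : S_KER) (hHB : S_HB) (hREP : S_REP)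
    (hAVG : S_AVG) : S_LOC := by
  intro n p hp2 hp4
  obtain ⟨C1, hC1, hker⟩ := hKER p hp2
  obtain ⟨C2, hC2, havg⟩ := hAVG n p hp2 hp4
  obtain ⟨C0, hC0, hka⟩ := hKA
  refine ⟨C1 * C2, by positivity, fun L hL N hN χ hχ σ hσ f hf hfi => ?_⟩
  have hL0 : 0 < L := by linarith
  set κ : ℝ := (L ^ 2)⁻¹ with hκ
  have hκ0 : 0 < κ := by positivity
  obtain ⟨hmeas, K, hK⟩ := hHB n κ hκ0 f hf hfi
  obtain ⟨-, hav⟩ := havg κ hκ0 f hf hfi
  have hav := hav L hL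
  have hkm := hKM L hL N hN χ hχ σ hσ
  have hker := hker L hL N hN χ hχ σ hσ
  have hpos : ∀ a ∈ box n, ∀ j, 0 < a j := by
    intro a ha j
    have h1 : (1 : ℝ) ≤ a j := ha.1 j
    linarith
  have hcs : Continuous χ := hχ.1.continuous
  -- the representation
  have hrep : ∀ a ∈ box n, ∀ t ∈ Icc (1 : ℝ) 2, ∀ x,
      IFT (fun ξ => OS χ (σ * t * L) (κ * H a ξ) * FT f ξ) x =
        ∫ s : ℝ, MK (OS χ (σ * t * L)) s * T (fun j => ga κ (a j) s) f x := by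
    intro a ha t ht x
    obtain ⟨c1, c2⟩ := hka L hL N hN χ hχ σ hσ t ht
    exact hREP _ (OS_cont hcs _) ⟨8, fun y hy => OS_supp hχ _ y hy⟩ (MK_int c1 c2) n κ hκ0 f hf hfi
      a (hpos a ha) x
  -- measurability
  have hm1 : ∀ a : Fin n → ℝ, Measurable (fun q : ℝ × (Fin n → ℝ) =>
      T (fun j => ga κ (a j) q.1) f q.2) := by
    intro a
    have hg : Measurable (fun q : ℝ × (Fin n → ℝ) => ((a, q.1), q.2)) :=
      (measurable_const.prodMk measurable_fst).prodMk measurable_snd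
    have h := Measurable.comp hmeas hg
    simp only [Function.comp_def] at h
    exact h
  have hm2 : ∀ a : Fin n → ℝ, Measurable (fun q : (ℝ × (Fin n → ℝ)) × ℝ =>
      MK (OS χ (σ * q.1.1 * L)) q.2 * T (fun j => ga κ (a j) q.2) f q.1.2) := by
    intro a
    have g1 : Measurable (fun q : (ℝ × (Fin n → ℝ)) × ℝ => (q.1.1, q.2)) :=
      (measurable_fst.comp measurable_fst).prodMk measurable_snd
    have e1 := Measurable.comp hkm g1
    have g2 : Measurable (fun q : (ℝ × (Fin n → ℝ)) × ℝ => (q.2, q.1.2)) :=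
      measurable_snd.prodMk (measurable_snd.comp measurable_fst)
    have e2 := Measurable.comp (hm1 a) g2
    simp only [Function.comp_def] at e1 e2
    exact e1.mul e2
  have hm3 : ∀ a : Fin n → ℝ, Measurable (fun q : ℝ × (Fin n → ℝ) =>
      ∫ s : ℝ, MK (OS χ (σ * q.1 * L)) s * T (fun j => ga κ (a j) s) f q.2) := by
    intro a
    exact ((hm2 a).stronglyMeasurable.integral_prod_right').measurable
  -- the bound for fixed `a`
  have hone : ∀ a ∈ box n, ∫⁻ t in Icc (1 : ℝ) 2, ∫⁻ x,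
        ‖IFT (fun ξ => OS χ (σ * t * L) (κ * H a ξ) * FT f ξ) x‖ₑ ^ p ≤
      ENNReal.ofReal (C1 * N ^ p * L ^ (p / 2 - 2)) * ∫⁻ x, ∫⁻ s : ℝ,
        ENNReal.ofReal ((1 + (s / L) ^ 2)⁻¹) * ‖T (fun j => ga κ (a j) s) f x‖ₑ ^ p := by
    intro a ha
    have e1 : ∫⁻ t in Icc (1 : ℝ) 2, ∫⁻ x,
        ‖IFT (fun ξ => OS χ (σ * t * L) (κ * H a ξ) * FT f ξ) x‖ₑ ^ p =
        ∫⁻ t in Icc (1 : ℝ) 2, ∫⁻ x,
        ‖∫ s : ℝ, MK (OS χ (σ * t * L)) s * T (fun j => ga κ (a j) s) f x‖ₑ ^ p := by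
      refine setLIntegral_congr_fun measurableSet_Icc fun t ht => ?_
      refine lintegral_congr fun x => ?_
      rw [hrep a ha t ht x]
    rw [e1]
    rw [lintegral_lintegral_swap (((hm3 a).enorm.pow_const p).aemeasurable)]
    rw [← lintegral_const_mul' _ _ ENNReal.ofReal_ne_top]
    refine lintegral_mono fun x => ?_
    have g3 : Measurable (fun s : ℝ => (s, x)) := measurable_prodMk_right
    have hms := Measurable.comp (hm1 a) g3
    simp only [Function.comp_def] at hms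
    refine (hker _ hms ⟨K, fun s => hK a ha s x⟩).trans ?_
    gcongr with s
    · have h1 : (1 : ℝ) ≤ 1 + (s / L) ^ 2 := by nlinarith [sq_nonneg (s / L)]
      rw [← Real.rpow_neg_one]
      exact Real.rpow_le_rpow_of_exponent_le h1 (by linarith)
  calc ∫⁻ a in box n, ∫⁻ t in Icc (1 : ℝ) 2, ∫⁻ x,
        ‖IFT (fun ξ => OS χ (σ * t * L) (κ * H a ξ) * FT f ξ) x‖ₑ ^ p
      ≤ ∫⁻ a in box n, ENNReal.ofReal (C1 * N ^ p * L ^ (p / 2 - 2)) * ∫⁻ x, ∫⁻ s : ℝ,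
        ENNReal.ofReal ((1 + (s / L) ^ 2)⁻¹) * ‖T (fun j => ga κ (a j) s) f x‖ₑ ^ p :=
        setLIntegral_mono' measurableSet_Icc hone
    _ = ENNReal.ofReal (C1 * N ^ p * L ^ (p / 2 - 2)) * ∫⁻ a in box n, ∫⁻ x, ∫⁻ s : ℝ,
        ENNReal.ofReal ((1 + (s / L) ^ 2)⁻¹) * ‖T (fun j => ga κ (a j) s) f x‖ₑ ^ p :=
        lintegral_const_mul' _ _ ENNReal.ofReal_ne_top
    _ ≤ ENNReal.ofReal (C1 * N ^ p * L ^ (p / 2 - 2)) *
        (ENNReal.ofReal (C2 * L * (1 + Real.log L) ^ n) * ∫⁻ x, ‖f x‖ₑ ^ p) := by gcongr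
    _ = ENNReal.ofReal (C1 * C2 * N ^ p * (L ^ (p / 2 - 1) * (1 + Real.log L) ^ n)) *
        ∫⁻ x, ‖f x‖ₑ ^ p := by
      rw [← mul_assoc, ← ENNReal.ofReal_mul (by positivity)]
      congr 2
      have e : L ^ (p / 2 - 1) = L ^ (p / 2 - 2) * L := by
        rw [show p / 2 - 1 = (p / 2 - 2) + 1 by ring, Real.rpow_add hL0, Real.rpow_one]
      rw [e]
      ring

end Pool.Agent.W347.WV
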